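import Pool.Agent.Lib.MP_f7e2be_al.Normal

/-!
# Groups with an infinitely generated conjugation closure

Let `G` be generated by the finite set `S`, let `Y` be a finite subset of `G` and `P` a set of
elements of word length at most `L`. If the subgroup generated by all conjugates of elements of `Y`
by elements of the subgroup generated by `P` is not finitely generated, then every Følner set of
scale `n` has at least `exp (n / (7 L))` elements, for all large `n`.
-/

set_option autoImplicit false

open Pointwise Pool.Agent.Lib.MP_f7e2be_al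

namespace Pool.Agent.Results.MP_f7e2be_al.ConjugationClosures

theorem result (G : Type*) [Group G] (S : Finset G) (hS : Subgroup.closure (S : Set G) = ⊤)
    (L : ℕ) (hL : 1 ≤ L) (P : Set G) (hP : P ⊆ Ball (S : Set G) L) (Y : Set G) (hY : Y.Finite)
    (hfg : ¬ (Subgroup.closure
      {x : G | ∃ c ∈ Subgroup.closure P, ∃ y ∈ Y, x = c * y * c⁻¹}).FG) :
    ∃ n₀ : ℕ, ∀ n : ℕ, n₀ ≤ n → ∀ F : Set G, F.Finite → F.Nonempty →
      (n : ℝ) * ((((F * (S : Set G)) \ F).ncard : ℕ) : ℝ) ≤ (F.ncard : ℝ) →
      Real.exp ((n : ℝ) / (7 * L)) ≤ (F.ncard : ℝ) :=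
  conj_gap hS hL hP hY hfg

end Pool.Agent.Results.MP_f7e2be_al.ConjugationClosures
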