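import Pool.Agent.Lib.MP_f7e2be_al.Multi

/-!
# A multi-scale growth inequality for Følner sets

Let `S` be a finite subset of a group `G`, let `F` be finite and nonempty with
`|F S \ F| ≤ |F| / n`, and let `K 0 ≤ K 1 ≤ ⋯` be subgroups. For `i < m` let `T i` be a finite
nonempty subset of `K (i + 1)` whose elements lie in different left cosets of `K i` and have
average word length at most `c i * n`, with `c i ≤ 1`. Then
`log |F| ≥ ∑ i < m, (1 - c i) log ((1 - c i) |T i|)`.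
-/

set_option autoImplicit false

open Pointwise Pool.Agent.Lib.MP_f7e2be_al

namespace Pool.Agent.Results.MP_f7e2be_al.MultiscaleGrowth

theorem result (G : Type*) [Group G] (S : Finset G) (n : ℕ) (hn : 1 ≤ n) (F : Set G)
    (hF : F.Finite) (hF0 : F.Nonempty)
    (hFS : (n : ℝ) * ((((F * (S : Set G)) \ F).ncard : ℕ) : ℝ) ≤ (F.ncard : ℝ))
    (m : ℕ) (K : ℕ → Subgroup G) (hK : Monotone K) (T : ℕ → Finset G) (r : ℕ → G → ℕ)
    (c : ℕ → ℝ)
    (hT : ∀ i < m, (T i).Nonempty ∧ ∀ t ∈ T i, t ∈ K (i + 1) ∧ t ∈ Ball (S : Set G) (r i t))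
    (hd : ∀ i < m, ∀ t ∈ T i, ∀ t' ∈ T i, t⁻¹ * t' ∈ K i → t = t')
    (hc : ∀ i < m, c i ≤ 1 ∧ ∑ t ∈ T i, (r i t : ℝ) ≤ c i * n * (T i).card) :
    ∑ i ∈ Finset.range m, (1 - c i) * Real.log ((1 - c i) * (T i).card) ≤
      Real.log F.ncard :=
  multi_folner hn ⟨hF, hF0, hFS⟩ m K T r c (fun i _ => hK (Nat.le_succ i))
    (fun i hi => (hT i hi).1) (fun i hi t ht => ((hT i hi).2 t ht).1) hd
    (fun i hi t ht => ((hT i hi).2 t ht).2) (fun i hi => (hc i hi).1) (fun i hi => (hc i hi).2)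

end Pool.Agent.Results.MP_f7e2be_al.MultiscaleGrowth
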