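import Pool.Agent.Lib.MP_f7e2be_al.Normal

/-!
# Uniform generation of conjugation closures in groups with sub-exponential Følner function

Suppose that the Følner function of a group with respect to the finite set `S` is sub-exponential.
Then for every `ε > 0` and `L`, for all large `n`, every set `P` of elements of length at most `L`
and every set `Y` of elements of length at most `n`, the subgroup generated by all conjugates of
elements of `Y` by elements of the subgroup generated by `P` is generated by the conjugates by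
products of at most `ε n` elements of `P` and their inverses.
-/

set_option autoImplicit false

open Pointwise Pool.Agent.Lib.MP_f7e2be_al

namespace Pool.Agent.Results.MP_f7e2be_al.UniformClosures

theorem result (G : Type*) [Group G] (S : Finset G)
    (hF : ∀ ε : ℝ, 0 < ε → ∃ N : ℕ, ∀ n : ℕ, N ≤ n → 1 ≤ n →
      ∃ F : Set G, F.Finite ∧ F.Nonempty ∧ (F.ncard : ℝ) ≤ Real.exp (ε * (n : ℝ)) ∧
        (n : ℝ) * ((((F * (S : Set G)) \ F).ncard : ℕ) : ℝ) ≤ (F.ncard : ℝ))
    (ε : ℝ) (hε : 0 < ε) (L : ℕ) :
    ∃ N : ℕ, ∀ n : ℕ, N ≤ n → ∀ P ⊆ Ball (S : Set G) L, ∀ Y ⊆ Ball (S : Set G) n,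
      Subgroup.closure {x : G | ∃ c ∈ Ball P ⌊ε * n⌋₊, ∃ y ∈ Y, x = c * y * c⁻¹} =
        Subgroup.closure {x : G | ∃ c ∈ Subgroup.closure P, ∃ y ∈ Y, x = c * y * c⁻¹} :=
  conj_uniform hF hε L

end Pool.Agent.Results.MP_f7e2be_al.UniformClosures
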